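import Mathlib

/-!
# Project SC (row MP_06548c_nt): the supersingular congruence for `E_4/(j - j(C))`

Definitions and the statements of the lemma jobs.  `q`-series are power series in `X = q`.
-/

set_option autoImplicit false

namespace Pool.Agent.Q279.SC

open PowerSeries

noncomputable section

/-! ## The `q`-series over `ℤ` -/

/-- `∑ σ_1(n) q^n` -/
def zS : ℤ⟦X⟧ := mk fun n => ((∑ d ∈ n.divisors, d : ℕ) : ℤ)

/-- `∑ σ_3(n) q^n` -/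
def zA : ℤ⟦X⟧ := mk fun n => ((∑ d ∈ n.divisors, d ^ 3 : ℕ) : ℤ)

/-- `∑ σ_5(n) q^n` -/
def zB : ℤ⟦X⟧ := mk fun n => ((∑ d ∈ n.divisors, d ^ 5 : ℕ) : ℤ)

/-- `∑ (5 σ_3(n) + 7 σ_5(n))/12 q^n` -/
def zQ : ℤ⟦X⟧ := mk fun n => ∑ d ∈ n.divisors, ((5 * (d : ℤ) ^ 3 + 7 * (d : ℤ) ^ 5) / 12)

/-- `E_2` -/
def z2 : ℤ⟦X⟧ := 1 - 24 * zS

/-- `E_4` -/
def z4 : ℤ⟦X⟧ := 1 + 240 * zA

/-- `E_6` -/
def z6 : ℤ⟦X⟧ := 1 - 504 * zB

/-- `Δ` -/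
def zD : ℤ⟦X⟧ := zQ + 100 * zA ^ 2 + 8000 * zA ^ 3 - 147 * zB ^ 2

/-- `Δ / q` -/
def zd : ℤ⟦X⟧ := mk fun n => coeff (n + 1) zD

/-- The `q`-series over a commutative ring `R`. -/
def q2 (R : Type) [CommRing R] : R⟦X⟧ := PowerSeries.map (Int.castRingHom R) z2
def q4 (R : Type) [CommRing R] : R⟦X⟧ := PowerSeries.map (Int.castRingHom R) z4
def q6 (R : Type) [CommRing R] : R⟦X⟧ := PowerSeries.map (Int.castRingHom R) z6
def qD (R : Type) [CommRing R] : R⟦X⟧ := PowerSeries.map (Int.castRingHom R) zD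
def qd (R : Type) [CommRing R] : R⟦X⟧ := PowerSeries.map (Int.castRingHom R) zd

/-- `q d/dq` -/
def th {R : Type} [CommRing R] (f : R⟦X⟧) : R⟦X⟧ := mk fun n => (n : R) * coeff n f

/-- `q ↦ q^p` -/
def fr (p : ℕ) {R : Type} [CommRing R] (f : R⟦X⟧) : R⟦X⟧ :=
  mk fun n => if p ∣ n then coeff (n / p) f else 0

/-! ## Polynomials in `E_4` and `E_6`; units of weight: `E_4` has weight 2, `E_6` weight 3 -/

/-- Polynomials in two variables `X 0 = E_4`, `X 1 = E_6`. -/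
abbrev P2 (R : Type) [CommRing R] := MvPolynomial (Fin 2) R

/-- Isobaric of weight `w` (modular weight `2 w`). -/
def Iso {R : Type} [CommRing R] (F : P2 R) (w : ℕ) : Prop :=
  MvPolynomial.IsWeightedHomogeneous (![2, 3] : Fin 2 → ℕ) F w

/-- The `q`-expansion. -/
def ev (R : Type) [CommRing R] : P2 R →+* R⟦X⟧ :=
  MvPolynomial.eval₂Hom (PowerSeries.C) ![q4 R, q6 R]

/-- Twelve times the Serre derivative: `E_4 ↦ -4 E_6`, `E_6 ↦ -6 E_4^2`. -/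
def DD (R : Type) [CommRing R] : Derivation R (P2 R) (P2 R) :=
  MvPolynomial.mkDerivation R ![-4 * MvPolynomial.X 1, -6 * MvPolynomial.X 0 ^ 2]

/-- Evaluation at a point. -/
def at2 {R : Type} [CommRing R] (x y : R) (F : P2 R) : R := MvPolynomial.eval ![x, y] F

/-- Reduction modulo `p` of polynomials. -/
def redP (p : ℕ) [Fact p.Prime] : P2 ℤ_[p] →+* P2 (ZMod p) := MvPolynomial.map PadicInt.toZMod

/-- Reduction modulo `p` of power series. -/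
def redS (p : ℕ) [Fact p.Prime] : ℤ_[p]⟦X⟧ →+* (ZMod p)⟦X⟧ := PowerSeries.map PadicInt.toZMod

/-! ## Jobs: power series -/

/-- Job FR: the substitution `q ↦ q^p`. -/
def FrF : Prop := ∀ (p : ℕ), p.Prime → ∀ (R : Type) [CommRing R],
  (∀ f g : R⟦X⟧, fr p (f * g) = fr p f * fr p g) ∧
  (∀ f g : R⟦X⟧, fr p (f + g) = fr p f + fr p g) ∧
  (fr p (1 : R⟦X⟧) = 1) ∧ (fr p (X : R⟦X⟧) = X ^ p) ∧
  (∀ f : R⟦X⟧, th (fr p f) = (p : R⟦X⟧) * fr p (th f)) ∧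
  (∀ (S : Type) [CommRing S] (φ : R →+* S) (f : R⟦X⟧),
    fr p (PowerSeries.map φ f) = PowerSeries.map φ (fr p f))

/-- Job FR2: modulo `p` it is the Frobenius. -/
def FrP : Prop := ∀ (p : ℕ) [Fact p.Prime] (f : (ZMod p)⟦X⟧), fr p f = f ^ p

/-- Job RAM: `Δ`, `Δ/q` and Ramanujan's differential equations. -/
def Ram : Prop :=
  1728 * zD = z4 ^ 3 - z6 ^ 2 ∧ zD = X * zd ∧ constantCoeff zd = 1 ∧
  12 * th z2 = z2 ^ 2 - z4 ∧ 3 * th z4 = z2 * z4 - z6 ∧ 2 * th z6 = z2 * z6 - z4 ^ 2 ∧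
  th zD = z2 * zD

/-- Job DER: the derivative of a `q`-expansion; the derivation raises the weight by one. -/
def DerF : Prop := ∀ (R : Type) [CommRing R] (F : P2 R) (w : ℕ), Iso F w →
  12 * th (ev R F) = ((2 * w : ℕ) : R⟦X⟧) * q2 R * ev R F + ev R (DD R F) ∧ Iso (DD R F) (w + 1)

def JDer : Prop := Ram → DerF

/-- Job STURM: modulo `p ≥ 5` an isobaric polynomial whose `q`-expansion vanishes to high order
is zero. -/
def Sturm : Prop := ∀ (p : ℕ) [Fact p.Prime], 5 ≤ p → ∀ (F : P2 (ZMod p)) (w m : ℕ), Iso F w →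
  w < 6 * m → X ^ m ∣ ev (ZMod p) F → F = 0

def JSturm : Prop := Ram → Sturm

/-! ## Jobs: modular forms -/

open UpperHalfPlane ModularForm MatrixGroups in
/-- Job STRUCT: a modular form of level one with rational `p`-integral coefficients is the
`q`-expansion of an isobaric polynomial over `ℤ_p`. -/
def Struct : Prop := ∀ (p : ℕ) [Fact p.Prime], 5 ≤ p →
  ∀ (w : ℕ) (F : ModularForm 𝒮ℒ ((2 * w : ℕ) : ℤ)) (c : ℕ → ℚ),
    (∀ n, (qExpansion 1 F).coeff n = (c n : ℂ)) → (∀ n, ‖((c n : ℚ) : ℚ_[p])‖ ≤ 1) →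
    ∃ N : P2 ℤ_[p], Iso N w ∧ ∀ n, ((coeff n (ev ℤ_[p] N) : ℤ_[p]) : ℚ_[p]) = ((c n : ℚ) : ℚ_[p])

def JStruct : Prop := Ram → Struct

/-- Job EIS: the Eisenstein series of weight `p - 1`. -/
def Eis : Prop := ∀ (p : ℕ) [Fact p.Prime], 5 ≤ p →
  ∃ (T : P2 ℤ_[p]) (ε : ℤ_[p]⟦X⟧), Iso T ((p - 1) / 2) ∧
    ev ℤ_[p] T = 1 + (p : ℤ_[p]⟦X⟧) * ε ∧
    12 * th (redS p ε) = q2 (ZMod p) - fr p (q2 (ZMod p))

def JEis : Prop := Struct → Eis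

open UpperHalfPlane ModularForm MatrixGroups in
/-- Job HECKE: the image of `E_4 E_6 / Δ` under the Hecke operator, times `Δ^p`. -/
def Hecke : Prop := ∀ (p : ℕ), p.Prime → 5 ≤ p → ∃ (n U : ℤ⟦X⟧),
  n * fr p zd = zd ^ p * fr p (z4 * z6) + (p : ℤ⟦X⟧) ^ 3 * X ^ p * U ∧
  ∃ F : ModularForm 𝒮ℒ ((2 * (6 * p - 1) : ℕ) : ℤ),
    ∀ m, (qExpansion 1 F).coeff m = ((coeff m n : ℤ) : ℂ)

/-! ## Jobs: the algebraic core -/

/-- Job COREA: `N` is `T^2 (E_4 E_6)^p` plus `p` times a polynomial `G`, and the derivative of the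
`q`-expansion of `G`. -/
def CoreA : Prop := ∀ (p : ℕ) [Fact p.Prime], 5 ≤ p → ∀ (T N : P2 ℤ_[p]) (ε V : ℤ_[p]⟦X⟧),
  Iso T ((p - 1) / 2) → ev ℤ_[p] T = 1 + (p : ℤ_[p]⟦X⟧) * ε →
  12 * th (redS p ε) = q2 (ZMod p) - fr p (q2 (ZMod p)) →
  Iso N (6 * p - 1) →
  ev ℤ_[p] N * fr p (qD ℤ_[p]) =
    qD ℤ_[p] ^ p * fr p (q4 ℤ_[p] * q6 ℤ_[p]) + (p : ℤ_[p]⟦X⟧) ^ 2 * V →
  ∃ G : P2 ℤ_[p], Iso G (6 * p - 1) ∧
    N = T ^ 2 * (MvPolynomial.X 0 * MvPolynomial.X 1) ^ p + (p : P2 ℤ_[p]) * G ∧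
    12 * th (ev (ZMod p) (redP p G)) =
      ev (ZMod p) (DD (ZMod p) (MvPolynomial.X 0 * MvPolynomial.X 1)) ^ p -
        (q4 (ZMod p) * q6 (ZMod p)) ^ (p - 1) *
          ev (ZMod p) (DD (ZMod p) (MvPolynomial.X 0 * MvPolynomial.X 1))

def JCoreA : Prop := FrF → FrP → Ram → DerF → Sturm → CoreA

/-- Job COREB: `G` vanishes at a point where `A` vanishes and its derivative does not. -/
def CoreB : Prop := ∀ (p : ℕ) [Fact p.Prime], 5 ≤ p → ∀ (A G : P2 (ZMod p)),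
  Iso A ((p - 1) / 2) → ev (ZMod p) A = 1 → Iso G (6 * p - 1) →
  12 * th (ev (ZMod p) G) =
      ev (ZMod p) (DD (ZMod p) (MvPolynomial.X 0 * MvPolynomial.X 1)) ^ p -
        (q4 (ZMod p) * q6 (ZMod p)) ^ (p - 1) *
          ev (ZMod p) (DD (ZMod p) (MvPolynomial.X 0 * MvPolynomial.X 1)) →
  ∀ x y : ZMod p, at2 x y A = 0 → at2 x y (DD (ZMod p) A) ≠ 0 → at2 x y G = 0

def JCoreB : Prop := Ram → DerF → Sturm → CoreB

/-- Job AODE: the second derivative of the Hasse invariant. -/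
def AOde : Prop := ∀ (p : ℕ) [Fact p.Prime], 5 ≤ p → ∀ (A : P2 (ZMod p)),
  Iso A ((p - 1) / 2) → ev (ZMod p) A = 1 →
  DD (ZMod p) (DD (ZMod p) A) = -(MvPolynomial.X 0) * A

def JAOde : Prop := Ram → DerF → Sturm → AOde

/-- Job SIMPLE: the zeros of the Hasse invariant are simple. -/
def Simple : Prop := ∀ (p : ℕ) [Fact p.Prime], 5 ≤ p → ∀ (A : P2 (ZMod p)),
  Iso A ((p - 1) / 2) → A ≠ 0 → DD (ZMod p) (DD (ZMod p) A) = -(MvPolynomial.X 0) * A →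
  ∀ x y : ZMod p, x ≠ 0 → y ≠ 0 → x ^ 3 ≠ y ^ 2 → at2 x y A = 0 → at2 x y (DD (ZMod p) A) ≠ 0

/-! ## Jobs: the Hasse polynomial -/

/-- `x^3 - 27 E_4 x - 54 E_6` -/
def cub (R : Type) [CommRing R] : Polynomial (P2 R) :=
  Polynomial.X ^ 3 - Polynomial.C (27 * MvPolynomial.X 0) * Polynomial.X -
    Polynomial.C (54 * MvPolynomial.X 1)

/-- The Hasse polynomial: the coefficient of `x^(p-1)` in `(x^3 - 27 E_4 x - 54 E_6)^((p-1)/2)`. -/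
def hs (p : ℕ) : P2 (ZMod p) := (cub (ZMod p) ^ ((p - 1) / 2)).coeff (p - 1)

/-- Job HS1: weight, differential equation (Picard-Fuchs) and value at `(1,1)`. -/
def Hs1 : Prop := ∀ (p : ℕ) [Fact p.Prime], 5 ≤ p → Iso (hs p) ((p - 1) / 2)

def Hs2 : Prop := ∀ (p : ℕ) [Fact p.Prime], 5 ≤ p →
  DD (ZMod p) (DD (ZMod p) (hs p)) = -(MvPolynomial.X 0) * hs p

/-- Job HS3: comparison with `A`. -/
def Hs3 : Prop := ∀ (p : ℕ) [Fact p.Prime], 5 ≤ p → ∀ (A : P2 (ZMod p)),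
  Iso A ((p - 1) / 2) → ev (ZMod p) A = 1 → ∃ u : ZMod p, u ≠ 0 ∧ hs p = MvPolynomial.C u * A

def JHs3 : Prop := Ram → DerF → Sturm → Hs1 → Hs2 → Hs3

/-- `p + 1 - #W(𝔽_p)` -/
def ap (W : WeierstrassCurve ℤ) (p : ℕ) : ℤ :=
  p + 1 - (Nat.card (W.map (Int.castRingHom (ZMod p))).toAffine.Point : ℕ)

/-- Job COUNT: the number of points modulo `p`. -/
def Count : Prop := ∀ (p : ℕ) [Fact p.Prime], 5 ≤ p → ∀ W : WeierstrassCurve ℤ,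
  ¬ (p : ℤ) ∣ W.Δ → (p : ℤ) ∣ ap W p →
  at2 ((W.c₄ : ℤ) : ZMod p) ((W.c₆ : ℤ) : ZMod p) (hs p) = 0

/-- Job SMALL: the primes 2 and 3. -/
def Small : Prop := ∀ (p : ℕ), p = 2 ∨ p = 3 → ∀ W : WeierstrassCurve ℤ,
  ¬ (p : ℤ) ∣ W.Δ → (p : ℤ) ∣ ap W p → (p : ℤ) ∣ W.c₄

/-! ## Job: duality -/

/-- Job DUAL: the coefficient of `q^p` of `E_4/(j - c)`. -/
def Dual : Prop := ∀ (p : ℕ) [Fact p.Prime], 5 ≤ p → ∀ N : P2 ℤ_[p], Iso N (6 * p - 1) →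
  X ^ p ∣ ev ℤ_[p] N - qd ℤ_[p] ^ p →
  ∀ (x y D c : ℤ_[p]) (Φ : ℤ_[p]⟦X⟧), 1728 * D = x ^ 3 - y ^ 2 → c * D = x ^ 3 → D ≠ 0 →
    Φ * (q4 ℤ_[p] ^ 3 - C c * qD ℤ_[p]) = q4 ℤ_[p] * qd ℤ_[p] →
    at2 x y N = x * y * D ^ (p - 1) * coeff (p - 1) Φ

def JDual : Prop := Ram → Dual

end

end Pool.Agent.Q279.SC
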